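import Mathlib
import Pool.Agent.H744R2.KZ.Props
import Pool.Agent.H445R2.Kad4.Range
import Pool.Agent.H332R2.Kad4.NoMin

open scoped ComplexOrder InnerProductSpace ComplexConjugate Topology
open Finset Filter

noncomputable section

namespace H744R2.KZ

open H759R2.Kad

universe u

namespace TSpanaux

section abs

variable {A B : Type u} [CStarAlgebra A] [PartialOrder A] [StarOrderedRing A]
  [CStarAlgebra B] [PartialOrder B] [StarOrderedRing B]

theorem map_nonneg' (p : A →⋆ₐ[ℂ] B) {x : A} (hx : 0 ≤ x) : 0 ≤ p x := by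
  obtain ⟨y, rfl⟩ := CStarAlgebra.nonneg_iff_eq_star_mul_self.1 hx
  rw [map_mul, map_star]
  exact star_mul_self_nonneg _

theorem dich (p : A →⋆ₐ[ℂ] B) (hR : F07.HR A) {e : A} (he : star e = e) (hee : e * e = e)
    (hq : ∀ q : A, star q = q → q * q = q → e * q = q → p q = 0 ∨ p q = p e)
    {b : A} (hb : star b = b) (heb : e * b = b) : 0 ≤ p b ∨ p b ≤ 0 := by
  obtain ⟨h1, h2, h3⟩ := F07.pos_part he hee hb heb
  have hsub : b⁺ - b⁻ = b := CFC.posPart_sub_negPart b hb
  obtain ⟨r, hr1, hr2, hr3, hr4⟩ := hR b⁺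
  have hpr : e * r = r := by
    have h4 : (1 - e) * b⁺ = 0 := by rw [sub_mul, one_mul, h1, sub_self]
    have h5 := hr4 _ h4
    rw [sub_mul, one_mul, sub_eq_zero] at h5
    exact h5.symm
  rcases hq r hr1 hr2 hpr with h0 | h0
  · right
    have h4 : p b⁺ = 0 := by rw [← hr3, map_mul, h0, zero_mul]
    rw [← hsub, map_sub, h4, zero_sub]
    exact neg_nonpos.2 (map_nonneg' p (CFC.negPart_nonneg b))
  · left
    have h5 : b⁻ * r = 0 := hr4 _ (CFC.negPart_mul_posPart b)
    have h4 : p b⁻ = 0 := by
      have h6 : p (b⁻ * e) = 0 := by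
        rw [map_mul, ← h0, ← map_mul, h5, map_zero]
      rwa [h3, h2] at h6
    rw [← hsub, map_sub, h4, sub_zero]
    exact map_nonneg' p (CFC.posPart_nonneg b)

theorem norm_proj {P : B} (hP : star P = P) (hPP : P * P = P) (h0 : P ≠ 0) : ‖P‖ = 1 := by
  have h1 : ‖P‖ * ‖P‖ = ‖P‖ := by
    have := CStarRing.norm_star_mul_self (x := P)
    rw [hP, hPP] at this
    exact this.symm
  have h2 : ‖P‖ ≠ 0 := norm_ne_zero_iff.2 h0
  exact mul_right_cancel₀ h2 (by rw [h1, one_mul])

theorem scalar_sa (p : A →⋆ₐ[ℂ] B) (hR : F07.HR A) {e : A} (he : star e = e) (hee : e * e = e)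
    (hq : ∀ q : A, star q = q → q * q = q → e * q = q → p q = 0 ∨ p q = p e)
    {a : A} (ha : star a = a) (hea : e * a = a) : ∃ s : ℂ, p a = s • p e := by
  by_cases h0 : p e = 0
  · refine ⟨0, ?_⟩
    rw [← hea, map_mul, h0, zero_mul, smul_zero]
  have hP : star (p e) = p e := by rw [← map_star, he]
  have hPP : p e * p e = p e := by rw [← map_mul, hee]
  have hn := norm_proj hP hPP h0
  have hPos : 0 ≤ p e := by
    rw [← hPP]
    nth_rw 1 [← hP]
    exact star_mul_self_nonneg _
  have hd : ∀ t : ℝ, ((t : ℂ) • p e ≤ p a) ∨ (p a ≤ (t : ℂ) • p e) := by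
    intro t
    have hb : star (a - (t : ℂ) • e) = a - (t : ℂ) • e := by
      rw [star_sub, star_smul, ha, he]; simp
    have heb : e * (a - (t : ℂ) • e) = a - (t : ℂ) • e := by
      rw [mul_sub, hea, mul_smul_comm, hee]
    rcases dich p hR he hee hq hb heb with h | h
    · left
      rw [map_sub, map_smul] at h
      exact sub_nonneg.1 h
    · right
      rw [map_sub, map_smul] at h
      exact sub_nonpos.1 h
  have hnn : ∀ t : ℝ, 0 ≤ t → 0 ≤ (t : ℂ) • p e := by
    intro t ht
    have : (t : ℂ) • p e = t • p e := by rw [Complex.coe_smul]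
    rw [this]
    exact smul_nonneg ht hPos
  have hnorm : ∀ t : ℝ, ‖(t : ℂ) • p e‖ = |t| := by
    intro t
    rw [norm_smul, hn, mul_one, Complex.norm_real, Real.norm_eq_abs]
  have hcont : Continuous fun t : ℝ => (t : ℂ) • p e :=
    (Complex.continuous_ofReal).smul continuous_const
  have hc1 : IsClosed {t : ℝ | (t : ℂ) • p e ≤ p a} := by
    have : {t : ℝ | (t : ℂ) • p e ≤ p a} = (fun t : ℝ => p a - (t : ℂ) • p e) ⁻¹' {x | 0 ≤ x} := by
      ext t; simp [sub_nonneg]
    rw [this]
    exact CStarAlgebra.isClosed_nonneg.preimage (continuous_const.sub hcont)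
  have hc2 : IsClosed {t : ℝ | p a ≤ (t : ℂ) • p e} := by
    have : {t : ℝ | p a ≤ (t : ℂ) • p e} = (fun t : ℝ => (t : ℂ) • p e - p a) ⁻¹' {x | 0 ≤ x} := by
      ext t; simp [sub_nonneg]
    rw [this]
    exact CStarAlgebra.isClosed_nonneg.preimage (hcont.sub continuous_const)
  have hm := isPreconnected_closed_iff.1 (isPreconnected_univ (α := ℝ)) _ _ hc1 hc2
    (fun t _ => hd t) ?_ ?_
  · obtain ⟨t, _, ht1, ht2⟩ := hm
    exact ⟨t, le_antisymm ht2 ht1⟩
  · refine ⟨-(‖p a‖ + 1), Set.mem_univ _, ?_⟩
    rcases hd (-(‖p a‖ + 1)) with h | h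
    · exact h
    · exfalso
      have h1 : ((‖p a‖ + 1 : ℝ) : ℂ) • p e ≤ - p a := by
        have := neg_le_neg h
        rw [← neg_smul] at this
        simpa using this
      have h2 := CStarAlgebra.norm_le_norm_of_nonneg_of_le (hnn _ (by positivity)) h1
      rw [hnorm, norm_neg, abs_of_nonneg (by positivity)] at h2
      linarith
  · refine ⟨‖p a‖ + 1, Set.mem_univ _, ?_⟩
    rcases hd (‖p a‖ + 1) with h | h
    · exfalso
      have h2 := CStarAlgebra.norm_le_norm_of_nonneg_of_le (hnn _ (by positivity)) h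
      rw [hnorm, abs_of_nonneg (by positivity)] at h2
      linarith
    · exact h

theorem scalar (p : A →⋆ₐ[ℂ] B) (hR : F07.HR A) {e : A} (he : star e = e) (hee : e * e = e)
    (hq : ∀ q : A, star q = q → q * q = q → e * q = q → p q = 0 ∨ p q = p e)
    {x : A} (h1 : e * x = x) (h2 : x * e = x) : ∃ c : ℂ, p x = c • p e := by
  have h3 : e * star x = star x := by
    have := congrArg star h2
    rwa [star_mul, he] at this
  obtain ⟨c, hc⟩ := scalar_sa p hR he hee hq (a := x + star x)
    (by rw [star_add, star_star, add_comm]) (by rw [mul_add, h1, h3])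
  obtain ⟨d, hd⟩ := scalar_sa p hR he hee hq (a := Complex.I • (star x - x))
    (by
      rw [star_smul, star_sub, star_star]
      simp only [RCLike.star_def, Complex.conj_I, neg_smul, ← smul_neg, neg_sub])
    (by rw [mul_smul_comm, mul_sub, h1, h3])
  refine ⟨(1 / 2 : ℂ) * (c + Complex.I * d), ?_⟩
  have h4 : (2 : ℂ) • x = (x + star x) + Complex.I • (Complex.I • (star x - x)) := by
    rw [smul_smul, Complex.I_mul_I, two_smul]
    simp
  have h5 : (2 : ℂ) • p x = (c + Complex.I * d) • p e := by
    rw [← map_smul, h4, map_add, map_smul, hc, hd, smul_smul, ← add_smul]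
  calc p x = (1 / 2 : ℂ) • ((2 : ℂ) • p x) := by rw [smul_smul]; norm_num
    _ = _ := by rw [h5, smul_smul]

end abs

end TSpanaux

open TSpanaux in
theorem prove_T_span : T_span.{u} := by
  intro H _ _ _ M z B _ p hF hT
  let _ : PartialOrder M.toStarSubalgebra := CStarAlgebra.spectralOrder _
  have _ : StarOrderedRing M.toStarSubalgebra := CStarAlgebra.spectralOrderedRing _
  let _ : PartialOrder B := CStarAlgebra.spectralOrder _
  have _ : StarOrderedRing B := CStarAlgebra.spectralOrderedRing _
  obtain ⟨k, f, hfM, hf, hfz, hAB⟩ := hT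
  set Z : M.toStarSubalgebra := ⟨z, hF.cp.2.1⟩ with hZ
  have hpZ : p Z = 1 := hF.one
  let F : Fin k → Fin k → M.toStarSubalgebra := fun i j => ⟨f i j, hfM i j⟩
  have hFsum : ∑ i, F i i = Z := by
    apply Subtype.ext
    rw [AddSubmonoidClass.coe_finset_sum]
    exact hfz
  have hFmul : ∀ i j l m, F i j * F l m = if j = l then F i m else 0 := by
    intro i j l m
    apply Subtype.ext
    have := hf.mul i j l m
    split_ifs with h
    · rw [if_pos h] at this; exact this
    · rw [if_neg h] at this; exact this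
  have hFadj : ∀ i j, star (F i j) = F j i := by
    intro i j
    apply Subtype.ext
    exact hf.adj i j
  have hR : F07.HR M.toStarSubalgebra := by
    intro b
    obtain ⟨r, hrM, hr, hr1, hr2⟩ := prove5_range H M b b.2
    refine ⟨⟨r, hrM⟩, Subtype.ext hr.1, Subtype.ext hr.2, Subtype.ext hr1, ?_⟩
    intro x hx
    exact Subtype.ext (hr2 x (congrArg Subtype.val hx))
  refine ⟨k, fun i j => p (F i j), ⟨?_, ?_⟩, ?_⟩
  · intro i j l m
    rw [← map_mul, hFmul]
    split_ifs <;> simp
  · intro i j
    rw [← map_star, hFadj]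
  · intro b
    obtain ⟨a, rfl⟩ := hF.surj b
    rcases Nat.eq_zero_or_pos k with hk | hk
    · subst hk
      refine ⟨fun i => i.elim0, ?_⟩
      have h1 : (1 : B) = 0 := by
        rw [← hpZ, ← hFsum]
        simp
      rw [← mul_one (p a), h1, mul_zero]
      simp
    · set o : Fin k := ⟨0, hk⟩ with ho
      have he : star (F o o) = F o o := hFadj o o
      have hee : F o o * F o o = F o o := by rw [hFmul, if_pos rfl]
      have hq : ∀ q : M.toStarSubalgebra, star q = q → q * q = q → F o o * q = q →
          p q = 0 ∨ p q = p (F o o) := by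
        intro q hq1 hq2 hq3
        obtain ⟨c, hc, hqc⟩ := (hAB o).2.2 q q.2
          ⟨congrArg Subtype.val hq1, congrArg Subtype.val hq2⟩ (congrArg Subtype.val hq3)
        obtain ⟨s, hs⟩ := hF.scal ⟨c, hc.2.1⟩ hc.2
        have h1 : q = ⟨c, hc.2.1⟩ * F o o := Subtype.ext hqc
        have h2 : p q = s • p (F o o) := by
          rw [h1, map_mul, hs, Algebra.smul_def]
        by_cases h0 : p (F o o) = 0
        · left; rw [h2, h0, smul_zero]
        have h3 : p q * p q = p q := by rw [← map_mul, hq2]
        have h4 : p (F o o) * p (F o o) = p (F o o) := by rw [← map_mul, hee]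
        rw [h2, smul_mul_smul_comm, h4] at h3
        have h5 : (s * s - s) • p (F o o) = 0 := by rw [sub_smul, h3, sub_self]
        rcases smul_eq_zero.1 h5 with h6 | h6
        · have h7 : s * (s - 1) = 0 := by rw [← h6]; ring
          rcases mul_eq_zero.1 h7 with h8 | h8
          · left; rw [h2, h8, zero_smul]
          · right; rw [h2, sub_eq_zero.1 h8, one_smul]
        · exact absurd h6 h0
      have hs : ∀ i j, ∃ c : ℂ, p (F o i * a * F j o) = c • p (F o o) := by
        intro i j
        apply scalar p hR he hee hq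
        · rw [← mul_assoc, ← mul_assoc, hFmul, if_pos rfl]
        · rw [mul_assoc, hFmul, if_pos rfl]
      choose c hc using hs
      refine ⟨c, ?_⟩
      calc p a = p Z * p a * p Z := by rw [hpZ, one_mul, mul_one]
        _ = p ((∑ i, F i i) * a * (∑ j, F j j)) := by rw [hFsum, map_mul, map_mul]
        _ = p (∑ i, ∑ j, F i i * a * F j j) := by
            rw [sum_mul, sum_mul_sum]
        _ = ∑ i, ∑ j, p (F i i * a * F j j) := by
            rw [map_sum]
            exact sum_congr rfl fun i _ => map_sum _ _ _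
        _ = ∑ i, ∑ j, c i j • p (F i j) := by
            refine sum_congr rfl fun i _ => sum_congr rfl fun j _ => ?_
            have h1 : F i i * a * F j j = F i o * (F o i * a * F j o) * F o j := by
              have e1 : F i i = F i o * F o i := by rw [hFmul, if_pos rfl]
              have e2 : F j j = F j o * F o j := by rw [hFmul, if_pos rfl]
              rw [e1, e2]
              simp only [mul_assoc]
            rw [h1, map_mul, map_mul, hc i j, mul_smul_comm, smul_mul_assoc, ← map_mul, hFmul,
              if_pos rfl, ← map_mul, hFmul, if_pos rfl]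

end H744R2.KZ
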